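import Mathlib

/-!
Line bundles, ample line bundles, the tangent sheaf and maps from a line bundle to the tangent
sheaf, for schemes over a field.
-/

set_option autoImplicit false

open CategoryTheory AlgebraicGeometry

namespace Pool.Agent.TH179.QT

attribute [local instance] MvPolynomial.gradedAlgebra

/-- The ring of regular functions on the open subset `U` of the scheme `X`. -/
def Fn (X : Scheme.{0}) (U : X.Opens) : Type := X.presheaf.obj (Opposite.op U)

noncomputable instance instCommRingFn (X : Scheme.{0}) (U : X.Opens) : CommRing (Fn X U) :=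
  inferInstanceAs (CommRing (X.presheaf.obj (Opposite.op U)))

/-- Restriction of regular functions from `U` to a smaller open subset `V`. -/
noncomputable def res {X : Scheme.{0}} {U V : X.Opens} (h : V ≤ U) : Fn X U →+* Fn X V :=
  (X.presheaf.map (homOfLE h).op).hom

/-- The open subset of `U` where the regular function `f` on `U` does not vanish. -/
noncomputable def nonvanishing {X : Scheme.{0}} {U : X.Opens} (f : Fn X U) : X.Opens :=
  Scheme.basicOpen X (U := U) f

/-- The point `x` of `X` lies in the open subset `U`. -/
def Mem {X : Scheme.{0}} (x : X) (U : X.Opens) : Prop := x ∈ U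

variable {k : Type} [Field k]

/-- For a scheme `X` over the field `k`: the elements of `k` as regular functions on `U`. -/
noncomputable def scalar {X : Scheme.{0}} (s : X ⟶ Spec (.of k)) (U : X.Opens) : k →+* Fn X U :=
  (res (le_top : U ≤ ⊤)).comp (s.appTop.hom.comp (Scheme.ΓSpecIso (.of k)).inv.hom)

/-- Projective `n`-space over `k`: the scheme `Proj k[x_0, ..., x_n]` with the grading by degree. -/
noncomputable def PSpace (n : ℕ) (k : Type) [Field k] : Scheme.{0} :=
  Proj (MvPolynomial.homogeneousSubmodule (Fin (n + 1)) k)

/-- The structure morphism of projective `n`-space over `k`. -/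
noncomputable def PSpace.str (n : ℕ) (k : Type) [Field k] : PSpace n k ⟶ Spec (.of k) :=
  Proj.toSpecZero (MvPolynomial.homogeneousSubmodule (Fin (n + 1)) k) ≫
    Spec.map (CommRingCat.ofHom
      (algebraMap k (MvPolynomial.homogeneousSubmodule (Fin (n + 1)) k 0)))

/-- The scheme `X` over `k` (with structure morphism `s`) is isomorphic over `k` to projective
`n`-space. -/
def IsProjectiveSpace {X : Scheme.{0}} (n : ℕ) (s : X ⟶ Spec (.of k)) : Prop :=
  ∃ e : X ≅ PSpace n k, e.hom ≫ PSpace.str n k = s

/-- The scheme `X` over `k` (with structure morphism `s`) is a smooth projective variety of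
dimension `n`: an integral scheme, smooth of relative dimension `n` over `k`, and isomorphic over
`k` to a closed subscheme of some projective space. -/
structure IsSmoothProjectiveVariety {X : Scheme.{0}} (n : ℕ) (s : X ⟶ Spec (.of k)) : Prop where
  integral : IsIntegral X
  smooth : SmoothOfRelativeDimension n s
  projective : ∃ (N : ℕ) (i : X ⟶ PSpace N k), IsClosedImmersion i ∧ i ≫ PSpace.str N k = s

/-- A line bundle `L` on `X`, given by an open cover `U i` and transition functions: `L` has a
nowhere vanishing section `e i` over `U i`, and `e j = g i j * e i` on `U i ∩ U j`. -/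
structure LineBundle (X : Scheme.{0}) where
  ι : Type
  U : ι → X.Opens
  covers : ∀ x : X, ∃ i, Mem x (U i)
  g : ∀ i j, Fn X (U i ⊓ U j)
  unit : ∀ i j, IsUnit (g i j)
  cocycle : ∀ (i j l : ι) (W : X.Opens) (hi : W ≤ U i) (hj : W ≤ U j) (hl : W ≤ U l),
    res (le_inf hi hj) (g i j) * res (le_inf hj hl) (g j l) = res (le_inf hi hl) (g i l)

/-- A global section of the tensor power `L^n`: functions `f i` on `U i` such that
`f i * (e i)^n = f j * (e j)^n`, that is `f i = (g i j)^n * f j`, on `U i ∩ U j`. -/
structure LineBundle.PowSection {X : Scheme.{0}} (L : LineBundle X) (n : ℕ) where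
  f : ∀ i, Fn X (L.U i)
  compat : ∀ (i j : L.ι) (W : X.Opens) (hi : W ≤ L.U i) (hj : W ≤ L.U j),
    res hi (f i) = res (le_inf hi hj) (L.g i j) ^ n * res hj (f j)

/-- The open subset where a global section of `L^n` does not vanish. -/
noncomputable def LineBundle.PowSection.locus {X : Scheme.{0}} {L : LineBundle X} {n : ℕ}
    (t : L.PowSection n) : X.Opens :=
  ⨆ i, nonvanishing (t.f i)

/-- The line bundle `L` on `X` is ample: `X` is quasi-compact and every point of `X` lies in an
affine open subset of the form `X_t`, the open subset where the section `t` of some positive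
power of `L` does not vanish. -/
def LineBundle.IsAmple {X : Scheme.{0}} (L : LineBundle X) : Prop :=
  CompactSpace X ∧ ∀ x : X, ∃ (n : ℕ) (t : L.PowSection n), 0 < n ∧ Mem x t.locus ∧
    IsAffineOpen t.locus

/-- A vector field on the open subset `U` of the scheme `X` over `k`, that is a section over `U` of
the tangent sheaf `T_X = Der_k(O_X, O_X)`: a derivation over `k` of the ring of regular functions
on every open subset `V` of `U`, compatible with restriction. -/
structure VectorField {X : Scheme.{0}} (s : X ⟶ Spec (.of k)) (U : X.Opens) where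
  D : ∀ V : X.Opens, V ≤ U → Fn X V → Fn X V
  add : ∀ (V : X.Opens) (h : V ≤ U) (f g : Fn X V), D V h (f + g) = D V h f + D V h g
  leibniz : ∀ (V : X.Opens) (h : V ≤ U) (f g : Fn X V), D V h (f * g) = f * D V h g + g * D V h f
  constant : ∀ (V : X.Opens) (h : V ≤ U) (a : k), D V h (scalar s V a) = 0
  restrict : ∀ (V W : X.Opens) (h : V ≤ U) (h' : W ≤ V) (f : Fn X V),
    res h' (D V h f) = D W (h'.trans h) (res h' f)

/-- A morphism of `O_X`-modules `φ : L → T_X` from the line bundle `L` to the tangent sheaf of the
scheme `X` over `k`: the vector fields `θ i = φ (e i)` on `U i` are such that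
`θ j = g i j * θ i` on `U i ∩ U j`. -/
structure TangentMap {X : Scheme.{0}} (s : X ⟶ Spec (.of k)) (L : LineBundle X) where
  θ : ∀ i, VectorField s (L.U i)
  compat : ∀ (i j : L.ι) (V : X.Opens) (hi : V ≤ L.U i) (hj : V ≤ L.U j) (f : Fn X V),
    (θ j).D V hj f = res (le_inf hi hj) (L.g i j) * (θ i).D V hi f

/-- The morphism `L → T_X` is zero. -/
def TangentMap.IsZero {X : Scheme.{0}} {s : X ⟶ Spec (.of k)} {L : LineBundle X}
    (φ : TangentMap s L) : Prop :=
  ∀ (i : L.ι) (V : X.Opens) (h : V ≤ L.U i) (f : Fn X V), (φ.θ i).D V h f = 0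

/-- The morphism `L → T_X` vanishes nowhere: near every point `x` of `X` some function `f` has
derivative `φ (e i) (f)` not vanishing at `x`. If `X` is smooth this says that `φ` makes `L` a
subbundle of the vector bundle `T_X`. -/
def TangentMap.NowhereVanishing {X : Scheme.{0}} {s : X ⟶ Spec (.of k)} {L : LineBundle X}
    (φ : TangentMap s L) : Prop :=
  ∀ x : X, ∃ (i : L.ι) (V : X.Opens) (h : V ≤ L.U i) (f : Fn X V),
    Mem x (nonvanishing ((φ.θ i).D V h f))

end Pool.Agent.TH179.QT
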