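import Pool.Agent.TH179.QT.Quad
import Pool.Agent.H835R5.T.Cmp
import Pool.Agent.H835R5.T.Der

/-!
The function field of the quadric and its derivation.
-/

set_option autoImplicit false

open MvPolynomial AlgebraicGeometry CategoryTheory TopologicalSpace
open Pool.Agent.Helper198.Sch
open Pool.Agent.H835R3 (gam gam_injective gam_res genericPoint_mem eq_of_gam)
open Pool.Agent.H835R5 (sc cJ cst rs taskCmp)

namespace Pool.Agent.TH179.QT

attribute [local instance] MvPolynomial.gradedAlgebra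

section general

variable {σ : Type} {R : Type} [CommRing R] (J : HI σ R)

lemma sc_bij (c : σ) : Function.Bijective (sc J c) := (taskCmp σ R J).1 c

lemma affine_D (c : σ) : IsAffineOpen (V.D J c) := (taskCmp σ R J).2.1 c

lemma sc_const (c : σ) (a : R) : sc J c (algebraMap R (Ch J c) a) = cst (cJ J) (V.D J c) a :=
  (taskCmp σ R J).2.2.1 c a

lemma basicOpen_sc (c c' : σ) :
    (V J).basicOpen (sc J c (frac J c c')) = V.D J c ⊓ V.D J c' := (taskCmp σ R J).2.2.2.1 c c'

lemma sc_mul (c c' a : σ) :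
    rs (inf_le_left : V.D J c ⊓ V.D J c' ≤ V.D J c) (sc J c (frac J c a)) =
    rs (inf_le_left : V.D J c ⊓ V.D J c' ≤ V.D J c) (sc J c (frac J c c')) *
      rs (inf_le_right : V.D J c ⊓ V.D J c' ≤ V.D J c') (sc J c' (frac J c' a)) :=
  (taskCmp σ R J).2.2.2.2 c c' a

variable {J} [hJ : IsIntegral (V J)]

/-- functions on a chart as elements of the function field -/
noncomputable def th (c : σ) (h : genericPoint (V J) ∈ V.D J c) : Ch J c →+* (V J).functionField :=
  (gam (V.D J c) h).comp (sc J c)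

lemma th_injective (c : σ) (h : genericPoint (V J) ∈ V.D J c) : Function.Injective (th c h) :=
  (gam_injective _ h).comp (sc_bij J c).1

/-- constants in the function field -/
noncomputable def kap (J : HI σ R) [IsIntegral (V J)] : R →+* (V J).functionField :=
  (gam (X := V J) ⊤ trivial).comp (cJ J)

lemma gam_cst (W : (V J).Opens) (h : genericPoint (V J) ∈ W) (a : R) :
    gam W h (cst (cJ J) W a) = kap J a :=
  gam_res (le_top : W ≤ ⊤) h (cJ J a)

lemma th_const (c : σ) (h : genericPoint (V J) ∈ V.D J c) (a : R) :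
    th c h (algebraMap R (Ch J c) a) = kap J a := by
  rw [th, RingHom.comp_apply, sc_const, gam_cst]

lemma th_mul (c c' a : σ) (h : genericPoint (V J) ∈ V.D J c) (h' : genericPoint (V J) ∈ V.D J c') :
    th c h (frac J c a) = th c h (frac J c c') * th c' h' (frac J c' a) := by
  have h1 := congrArg (gam (V.D J c ⊓ V.D J c') ⟨h, h'⟩) (sc_mul J c c' a)
  rw [map_mul] at h1
  have e1 : ∀ z : Ch J c, gam (V.D J c ⊓ V.D J c') ⟨h, h'⟩
      (rs (inf_le_left : V.D J c ⊓ V.D J c' ≤ V.D J c) (sc J c z)) = th c h z := fun z =>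
    gam_res inf_le_left ⟨h, h'⟩ (sc J c z)
  have e2 : ∀ z : Ch J c', gam (V.D J c ⊓ V.D J c') ⟨h, h'⟩
      (rs (inf_le_right : V.D J c ⊓ V.D J c' ≤ V.D J c') (sc J c' z)) = th c' h' z := fun z =>
    gam_res inf_le_right ⟨h, h'⟩ (sc J c' z)
  rw [e1, e1, e2] at h1
  exact h1

lemma th_aeval (c : σ) (h : genericPoint (V J) ∈ V.D J c) (p : MvPolynomial σ R) :
    th c h (aeval (frac J c) p) = eval₂ (kap J) (fun a => th c h (frac J c a)) p := by
  rw [aeval_def, hom_eval₂]
  congr 1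
  ext r
  exact th_const c h r

end general

section quadric

variable (k : Type) [Field k] [CharP k 2]

instance instIsIntegralQ : IsIntegral (V (JQ k)) := isIntegral_Q k

/-- the function field of the quadric -/
noncomputable abbrev KQ : Type := (V (JQ k)).functionField

lemma eta (t : Fin 4) : genericPoint (V (JQ k)) ∈ V.D (JQ k) (cc t) :=
  genericPoint_mem _ (pt k) (pt_mem k t)

/-- `x_a / x_1` -/
noncomputable def xx (a : Fin 5) : KQ k := th (cc 0) (eta k 0) (frac (JQ k) (cc 0) a)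

lemma xx_one : xx k 1 = 1 := by
  have h : frac (JQ k) (cc 0) 1 = 1 := frac_self (JQ k) 1
  rw [xx, h, map_one]

lemma xx_mul (t : Fin 4) (a : Fin 5) :
    xx k a = xx k (cc t) * th (cc t) (eta k t) (frac (JQ k) (cc t) a) :=
  th_mul (cc 0) (cc t) a (eta k 0) (eta k t)

lemma xx_ne (t : Fin 4) : xx k (cc t) ≠ 0 := by
  intro h
  have h1 := xx_mul k t 1
  rw [h, zero_mul, xx_one] at h1
  exact one_ne_zero h1

lemma th_eq (t : Fin 4) (a : Fin 5) :
    th (cc t) (eta k t) (frac (JQ k) (cc t) a) = xx k a / xx k (cc t) := by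
  rw [eq_div_iff (xx_ne k t), xx_mul k t a]
  ring

/-- the ring of functions on the first chart -/
noncomputable def rE : Γ(V (JQ k), V.D (JQ k) (cc 0)) ≃+* MvPolynomial (Fin 3) k :=
  (RingEquiv.ofBijective (sc (JQ k) (cc 0)) (sc_bij (JQ k) (cc 0))).symm.trans
    (chE k 0).toRingEquiv

lemma rE_sc (z : Ch (JQ k) (cc 0)) : rE k (sc (JQ k) (cc 0) z) = chE k 0 z := by
  have h : (RingEquiv.ofBijective (sc (JQ k) (cc 0)) (sc_bij (JQ k) (cc 0))).symm
      (sc (JQ k) (cc 0) z) = z :=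
    (RingEquiv.ofBijective (sc (JQ k) (cc 0)) (sc_bij (JQ k) (cc 0))).symm_apply_apply z
  exact congrArg (chE k 0) h

/-- the derivation on the first chart -/
noncomputable def D0 : Γ(V (JQ k), V.D (JQ k) (cc 0)) →+ Γ(V (JQ k), V.D (JQ k) (cc 0)) :=
  AddMonoidHom.mk' (fun s => (rE k).symm (pderiv 0 (rE k s))) (by
    intro a b
    rw [map_add, map_add, map_add])

omit [CharP k 2] in
lemma D0_apply (s : Γ(V (JQ k), V.D (JQ k) (cc 0))) :
    D0 k s = (rE k).symm (pderiv 0 (rE k s)) := rfl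

lemma D0_mul (a b : Γ(V (JQ k), V.D (JQ k) (cc 0))) :
    D0 k (a * b) = a * D0 k b + b * D0 k a := by
  rw [D0_apply, D0_apply, D0_apply, map_mul, Derivation.leibniz, map_add, smul_eq_mul, smul_eq_mul,
    map_mul, map_mul, RingEquiv.symm_apply_apply, RingEquiv.symm_apply_apply]

lemma pderiv_uu (a : Fin 5) : pderiv 0 (uu k 0 a) = if a = 0 then 1 else 0 := by
  have h2 : (2 : MvPolynomial (Fin 3) k) = 0 := by
    have h := congrArg (C : k →+* MvPolynomial (Fin 3) k) (two_k k)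
    rwa [map_ofNat, map_zero] at h
  have hw : pderiv 0 (ww k) = 0 := by
    have e : pderiv (0 : Fin 3) (ww k) = -(2 * X 0) := by
      simp [ww, pderiv_X]
    rw [e, h2, zero_mul, neg_zero]
  fin_cases a
  · exact pderiv_X_self 0
  · exact pderiv_one
  · exact hw
  · exact pderiv_X_of_ne (by decide)
  · exact pderiv_X_of_ne (by decide)

lemma exists_E : ∃ E : KQ k →+ KQ k, Pool.Agent.H835R3.IsSemi 2 2 E ∧
    (∀ a b, E (a * b) = a * E b + b * E a) ∧ (∀ a, E (kap (JQ k) a) = 0) ∧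
    ∀ a, E (xx k a) = if a = 0 then 1 else 0 := by
  have hne2 : Nonempty (V.D (JQ k) (cc 0)) := ⟨⟨_, eta k 0⟩⟩
  have hfr : IsFractionRing Γ(V (JQ k), V.D (JQ k) (cc 0)) (V (JQ k)).functionField :=
    functionField_isFractionRing_of_isAffineOpen (V (JQ k)) (V.D (JQ k) (cc 0))
      (affine_D (JQ k) (cc 0))
  have h2B : (2 : Γ(V (JQ k), V.D (JQ k) (cc 0))) = 0 := by
    have h := congrArg (cst (cJ (JQ k)) (V.D (JQ k) (cc 0))) (two_k k)
    rwa [map_ofNat, map_zero] at h
  obtain ⟨E, hE1, hE2, hE3⟩ := Pool.Agent.H835R5.Der632.exists_ext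
    (K := (V (JQ k)).functionField) h2B (D0 k) (D0_mul k)
  have hE4 : ∀ s, E (gam (V.D (JQ k) (cc 0)) (eta k 0) s) =
    gam (V.D (JQ k) (cc 0)) (eta k 0) (D0 k s) := hE3
  refine ⟨E, hE1, hE2, ?_, ?_⟩
  · intro a
    rw [← gam_cst (V.D (JQ k) (cc 0)) (eta k 0), hE4, ← sc_const, D0_apply, rE_sc,
      AlgEquiv.commutes, Derivation.map_algebraMap, map_zero, map_zero]
  · intro a
    have h1 : xx k a = gam (V.D (JQ k) (cc 0)) (eta k 0) (sc (JQ k) (cc 0)
      (frac (JQ k) (cc 0) a)) := rfl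
    rw [h1, hE4, D0_apply, rE_sc, chE_frac, pderiv_uu]
    split_ifs
    · rw [map_one, map_one]
    · rw [map_zero, map_zero]

/-- The derivation of the function field. -/
noncomputable def EE : KQ k →+ KQ k := (exists_E k).choose

lemma EE_mul (a b : KQ k) : EE k (a * b) = a * EE k b + b * EE k a :=
  (exists_E k).choose_spec.2.1 a b

lemma EE_kap (a : k) : EE k (kap (JQ k) a) = 0 := (exists_E k).choose_spec.2.2.1 a

lemma EE_xx (a : Fin 5) : EE k (xx k a) = if a = 0 then 1 else 0 :=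
  (exists_E k).choose_spec.2.2.2 a

lemma EE_one : EE k 1 = 0 := by
  have := EE_kap k 1
  rwa [map_one] at this

lemma cc_ne (t : Fin 4) : cc t ≠ 0 := by
  fin_cases t <;> decide

lemma EE_xx_cc (t : Fin 4) : EE k (xx k (cc t)) = 0 := by
  rw [EE_xx, if_neg (cc_ne t)]

lemma EE_th (t : Fin 4) (a : Fin 5) :
    xx k (cc t) * EE k (th (cc t) (eta k t) (frac (JQ k) (cc t) a)) = if a = 0 then 1 else 0 := by
  have h := EE_mul k (xx k (cc t)) (th (cc t) (eta k t) (frac (JQ k) (cc t) a))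
  rw [← xx_mul, EE_xx_cc, mul_zero, add_zero, EE_xx] at h
  exact h.symm

lemma EE_chart (t : Fin 4) (p : MvPolynomial (Fin 5) k) :
    xx k (cc t) * EE k (th (cc t) (eta k t) (aeval (frac (JQ k) (cc t)) p)) =
      th (cc t) (eta k t) (aeval (frac (JQ k) (cc t)) (pderiv 0 p)) := by
  induction p using MvPolynomial.induction_on with
  | C a =>
    rw [← MvPolynomial.algebraMap_eq, AlgHom.commutes, th_const, EE_kap, MvPolynomial.algebraMap_eq,
      pderiv_C, map_zero, map_zero, mul_zero]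
  | add p q hp hq =>
    rw [map_add, map_add, map_add, mul_add, hp, hq, map_add, map_add, map_add]
  | mul_X p i hp =>
    rw [map_mul, map_mul, EE_mul, mul_add, aeval_X, mul_left_comm, EE_th, mul_left_comm, hp,
      Derivation.leibniz, smul_eq_mul, smul_eq_mul, map_add, map_add, map_mul, map_mul, map_mul,
      map_mul, aeval_X]
    congr 2
    by_cases h : i = 0
    · subst h
      rw [if_pos rfl, pderiv_X_self, map_one, map_one]
    · rw [if_neg h, pderiv_X_of_ne h, map_zero, map_zero]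

/-- the derivation `x_a * E` preserves the functions on the charts -/
lemma pres (a : Fin 5) (t : Fin 4) (s : Γ(V (JQ k), V.D (JQ k) (cc t))) :
    ∃ s' : Γ(V (JQ k), V.D (JQ k) (cc t)),
      gam (V.D (JQ k) (cc t)) (eta k t) s' =
        xx k a * EE k (gam (V.D (JQ k) (cc t)) (eta k t) s) := by
  obtain ⟨z, rfl⟩ := (sc_bij (JQ k) (cc t)).2 s
  obtain ⟨p, rfl⟩ := aeval_frac_surjective (JQ k) (cc t) z
  refine ⟨sc (JQ k) (cc t) (frac (JQ k) (cc t) a * aeval (frac (JQ k) (cc t)) (pderiv 0 p)), ?_⟩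
  have h1 := EE_chart k t p
  have e1 : ∀ z, gam (V.D (JQ k) (cc t)) (eta k t) (sc (JQ k) (cc t) z) =
    th (cc t) (eta k t) z := fun z => rfl
  rw [e1, e1, map_mul, ← h1, xx_mul k t a]
  ring

/-- the additive map `x_a * E` -/
noncomputable def mE (a : Fin 5) : KQ k →+ KQ k := (AddMonoidHom.mulLeft (xx k a)).comp (EE k)

lemma mE_apply (a : Fin 5) (z : KQ k) : mE k a z = xx k a * EE k z := rfl

lemma mE_semi (a : Fin 5) : Pool.Agent.H835R3.IsSemi 2 2 (mE k a) := by
  intro u v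
  have h : EE k (u ^ 2 * v) = u ^ 2 * EE k v := (exists_E k).choose_spec.1 u v
  rw [mE_apply, mE_apply, h]
  exact mul_left_comm _ _ _

lemma exists_psi (a : Fin 5) : ∃ ψ : ∀ W : (V (JQ k)).Opens, Γ(V (JQ k), W) → Γ(V (JQ k), W),
    ∀ (W : (V (JQ k)).Opens) (h : genericPoint (V (JQ k)) ∈ W) (s : Γ(V (JQ k), W)),
      gam W h (ψ W s) = xx k a * EE k (gam W h s) := by
  obtain ⟨ψ, h1, -, -⟩ := Pool.Agent.H835R3.exists_sections (X := V (JQ k)) two_pos (mE k a)
    (mE_semi k a) (fun t : Fin 4 => V.D (JQ k) (cc t)) (fun t => affine_D (JQ k) (cc t))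
    (fun t => eta k t) (fun t s => pres k a t s) ⊤ (by
      intro x _
      obtain ⟨t, ht⟩ := exists_cc k x
      exact Opens.mem_iSup.2 ⟨t, ht⟩)
  exact ⟨fun W s => ψ ⟨W, le_top⟩ s, fun W h s => h1 ⟨W, le_top⟩ h s⟩

/-- The global vector field `x_a * E`. -/
noncomputable def psi (a : Fin 5) (W : (V (JQ k)).Opens) (s : Γ(V (JQ k), W)) : Γ(V (JQ k), W) :=
  (exists_psi k a).choose W s

lemma gam_psi (a : Fin 5) (W : (V (JQ k)).Opens) (h : genericPoint (V (JQ k)) ∈ W)
    (s : Γ(V (JQ k), W)) : gam W h (psi k a W s) = xx k a * EE k (gam W h s) :=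
  (exists_psi k a).choose_spec W h s

end quadric

end Pool.Agent.TH179.QT
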