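import Pool.Agent.TH179.QT.NonIso

/-!
The line bundle `O(1)` on the quadric, its ampleness and its map to the tangent sheaf.
-/

set_option autoImplicit false

open MvPolynomial AlgebraicGeometry CategoryTheory TopologicalSpace
open Pool.Agent.Helper198.Sch
open Pool.Agent.H835R3 (gam gam_injective gam_res genericPoint_mem eq_of_gam)
open Pool.Agent.H835R5 (sc cJ cst rs taskCmp)

namespace Pool.Agent.TH179.QT

attribute [local instance] MvPolynomial.gradedAlgebra

variable (k : Type) [Field k] [CharP k 2]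

/-- the germ at the generic point for `Fn` -/
noncomputable def gm (W : (V (JQ k)).Opens) (h : genericPoint (V (JQ k)) ∈ W) :
    Fn (V (JQ k)) W →+* KQ k := gam W h

lemma gm_res {U W : (V (JQ k)).Opens} (hW : W ≤ U) (h : genericPoint (V (JQ k)) ∈ W)
    (s : Fn (V (JQ k)) U) : gm k W h (res hW s) = gm k U (hW h) s := gam_res hW h s

lemma eq_of_gm {W : (V (JQ k)).Opens} (s t : Fn (V (JQ k)) W)
    (h : ∀ h, gm k W h s = gm k W h t) : s = t := eq_of_gam W s t h

/-- the functions `x_a / x_c` -/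
noncomputable def co (t : Fin 4) (a : Fin 5) : Fn (V (JQ k)) (V.D (JQ k) (cc t)) :=
  sc (JQ k) (cc t) (frac (JQ k) (cc t) a)

lemma gm_co (t : Fin 4) (a : Fin 5) (h : genericPoint (V (JQ k)) ∈ V.D (JQ k) (cc t)) :
    gm k _ h (co k t a) = xx k a / xx k (cc t) :=
  th_eq k t a

lemma gm_scalar (W : (V (JQ k)).Opens) (h : genericPoint (V (JQ k)) ∈ W) (a : k) :
    gm k W h (scalar (V.str (JQ k)) W a) = kap (JQ k) a :=
  gam_cst W h a

/-- the global derivation -/
noncomputable def ps (a : Fin 5) (W : (V (JQ k)).Opens) (s : Fn (V (JQ k)) W) : Fn (V (JQ k)) W :=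
  psi k a W s

lemma gm_ps (a : Fin 5) (W : (V (JQ k)).Opens) (h : genericPoint (V (JQ k)) ∈ W)
    (s : Fn (V (JQ k)) W) : gm k W h (ps k a W s) = xx k a * EE k (gm k W h s) :=
  gam_psi k a W h s

/-- the vector field `x_a * E` -/
noncomputable def vf (a : Fin 5) (U : (V (JQ k)).Opens) : VectorField (V.str (JQ k)) U where
  D W _ f := ps k a W f
  add W _ f g := by
    apply eq_of_gm
    intro h
    rw [map_add, gm_ps, gm_ps, gm_ps, map_add, map_add, mul_add]
  leibniz W _ f g := by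
    apply eq_of_gm
    intro h
    rw [map_add, map_mul, map_mul, gm_ps, gm_ps, gm_ps, map_mul, EE_mul]
    ring
  constant W _ c := by
    apply eq_of_gm
    intro h
    rw [map_zero, gm_ps, gm_scalar, EE_kap, mul_zero]
  restrict W W' _ h' f := by
    apply eq_of_gm
    intro h
    rw [gm_res, gm_ps, gm_ps, gm_res]

lemma vf_D (a : Fin 5) (U W : (V (JQ k)).Opens) (hW : W ≤ U)
    (f : Fn (V (JQ k)) W) : (vf k a U).D W hW f = ps k a W f := rfl

/-- the transition functions -/
noncomputable def gg (i j : Fin 4) : Fn (V (JQ k)) (V.D (JQ k) (cc i) ⊓ V.D (JQ k) (cc j)) :=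
  res inf_le_left (co k i (cc j))

lemma gm_gg (i j : Fin 4) {W : (V (JQ k)).Opens} (hi : W ≤ V.D (JQ k) (cc i))
    (hj : W ≤ V.D (JQ k) (cc j)) (h : genericPoint (V (JQ k)) ∈ W) :
    gm k W h (res (le_inf hi hj) (gg k i j)) = xx k (cc j) / xx k (cc i) := by
  rw [gm_res, gg, gm_res, gm_co]

lemma gg_unit (i j : Fin 4) : IsUnit (gg k i j) := by
  apply IsUnit.of_mul_eq_one (res inf_le_right (co k j (cc i)))
  apply eq_of_gm
  intro h
  rw [map_mul, map_one, gg, gm_res, gm_res, gm_co, gm_co]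
  have h1 := xx_ne k i
  have h2 := xx_ne k j
  field_simp

lemma gg_cocycle (i j l : Fin 4) (W : (V (JQ k)).Opens) (hi : W ≤ V.D (JQ k) (cc i))
    (hj : W ≤ V.D (JQ k) (cc j)) (hl : W ≤ V.D (JQ k) (cc l)) :
    res (le_inf hi hj) (gg k i j) * res (le_inf hj hl) (gg k j l) =
      res (le_inf hi hl) (gg k i l) := by
  apply eq_of_gm
  intro h
  rw [map_mul, gm_gg k i j hi hj h, gm_gg k j l hj hl h, gm_gg k i l hi hl h]
  have h1 := xx_ne k i
  have h2 := xx_ne k j
  field_simp

/-- The line bundle `O(1)`. -/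
noncomputable def OO : LineBundle (V (JQ k)) where
  ι := Fin 4
  U t := V.D (JQ k) (cc t)
  covers x := exists_cc k x
  g i j := gg k i j
  unit i j := gg_unit k i j
  cocycle i j l W hi hj hl := gg_cocycle k i j l W hi hj hl

lemma co_compat (a : Fin 5) (i j : Fin 4) (W : (V (JQ k)).Opens) (hi : W ≤ V.D (JQ k) (cc i))
    (hj : W ≤ V.D (JQ k) (cc j)) :
    res hi (co k i a) = res (le_inf hi hj) (gg k i j) ^ 1 * res hj (co k j a) := by
  apply eq_of_gm
  intro h
  rw [pow_one, map_mul, gm_gg k i j hi hj h, gm_res, gm_res, gm_co, gm_co]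
  have h1 := xx_ne k i
  have h2 := xx_ne k j
  field_simp

/-- the section `x_a` of `O(1)` -/
noncomputable def secX (a : Fin 5) : (OO k).PowSection 1 where
  f t := co k t a
  compat i j W hi hj := co_compat k a i j W hi hj

lemma secX_locus (t : Fin 4) : (secX k (cc t)).locus = V.D (JQ k) (cc t) := by
  have h : ∀ i : Fin 4, nonvanishing ((secX k (cc t)).f i) =
      V.D (JQ k) (cc i) ⊓ V.D (JQ k) (cc t) :=
    fun i => basicOpen_sc (JQ k) (cc i) (cc t)
  have h' : (secX k (cc t)).locus = ⨆ i : Fin 4, nonvanishing ((secX k (cc t)).f i) := rfl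
  rw [h']
  apply le_antisymm
  · exact iSup_le (fun i => (h i).le.trans inf_le_right)
  · refine le_trans ?_ (le_iSup _ t)
    rw [h t]
    exact le_inf le_rfl le_rfl

lemma compact_Q : CompactSpace (V (JQ k)) := by
  have hf : Finite (V.coverOf (JQ k) cc (fun x => exists_cc k x)).openCover.I₀ :=
    inferInstanceAs (Finite (Fin 4))
  have hc : ∀ i, CompactSpace ((V.coverOf (JQ k) cc (fun x => exists_cc k x)).openCover.X i) := by
    intro i
    exact Scheme.compactSpace_of_isAffine (Spec (.of (Ch (JQ k) (cc i))))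
  exact Scheme.OpenCover.compactSpace (V.coverOf (JQ k) cc (fun x => exists_cc k x)).openCover

lemma isAmple_OO : (OO k).IsAmple := by
  refine ⟨compact_Q k, fun x => ?_⟩
  obtain ⟨t, ht⟩ := exists_cc k x
  refine ⟨1, secX k (cc t), one_pos, ?_, ?_⟩
  · rw [secX_locus]
    exact ht
  · rw [secX_locus]
    exact affine_D (JQ k) (cc t)

lemma ps_compat (i j : Fin 4) (W : (V (JQ k)).Opens) (hi : W ≤ V.D (JQ k) (cc i))
    (hj : W ≤ V.D (JQ k) (cc j)) (f : Fn (V (JQ k)) W) :
    ps k (cc j) W f = res (le_inf hi hj) (gg k i j) * ps k (cc i) W f := by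
  apply eq_of_gm
  intro h
  rw [map_mul, gm_gg k i j hi hj h, gm_ps, gm_ps]
  have h1 := xx_ne k i
  field_simp

/-- The map from `O(1)` to the tangent sheaf. -/
noncomputable def phiO : TangentMap (V.str (JQ k)) (OO k) where
  θ t := vf k (cc t) (V.D (JQ k) (cc t))
  compat i j W hi hj f := ps_compat k i j W hi hj f

lemma ps_co (t : Fin 4) : ps k (cc t) (V.D (JQ k) (cc t)) (co k t 0) = 1 := by
  apply eq_of_gm
  intro h
  rw [gm_ps, map_one, gm_co]
  have h1 := EE_th k t 0
  rw [th_eq, if_pos rfl] at h1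
  exact h1

lemma phiO_nowhere : (phiO k).NowhereVanishing := by
  intro x
  obtain ⟨t, ht⟩ := exists_cc k x
  refine ⟨t, V.D (JQ k) (cc t), le_rfl, co k t 0, ?_⟩
  have h : ((phiO k).θ t).D (V.D (JQ k) (cc t)) le_rfl (co k t 0) = 1 := ps_co k t
  rw [h]
  have e : Scheme.basicOpen (V (JQ k)) (U := V.D (JQ k) (cc t)) (1 : Γ(V (JQ k), _)) =
    V.D (JQ k) (cc t) := Scheme.basicOpen_one _
  change x ∈ Scheme.basicOpen (V (JQ k)) (U := V.D (JQ k) (cc t)) (1 : Γ(V (JQ k), _))
  rw [e]
  exact ht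

lemma phiO_ne : ¬ (phiO k).IsZero := by
  intro hz
  have h2 : ps k (cc 0) (V.D (JQ k) (cc 0)) (co k 0 0) = 0 :=
    hz (0 : Fin 4) (V.D (JQ k) (cc 0)) le_rfl (co k 0 0)
  rw [ps_co] at h2
  have h3 := congrArg (gm k _ (eta k 0)) h2
  rw [map_one, map_zero] at h3
  exact one_ne_zero h3

end Pool.Agent.TH179.QT
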