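import Pool.Agent.TH179.QT.Defs
import Pool.Agent.Helper198.SchP

/-!
Projective space as a scheme `V ⊥`.
-/

set_option autoImplicit false

open MvPolynomial AlgebraicGeometry CategoryTheory Limits TopologicalSpace
open Pool.Agent.Helper198.Sch

namespace Pool.Agent.TH179.QT

attribute [local instance] MvPolynomial.gradedAlgebra

section general

variable {A B : Type} [CommRing A] [CommRing B] {τ υ : Type}
    [SetLike τ A] [SetLike υ B] [AddSubgroupClass τ A] [AddSubgroupClass υ B]
    {𝒜 : ℕ → τ} {ℬ : ℕ → υ} [GradedRing 𝒜] [GradedRing ℬ] (f : 𝒜 →+*ᵍ ℬ)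

lemma away_map_injective (hf : Function.Injective f) {i : ℕ} (s : A) (hs : s ∈ 𝒜 i) :
    Function.Injective (HomogeneousLocalization.Away.map f s) := by
  intro x y hxy
  obtain ⟨n, a, ha, rfl⟩ := HomogeneousLocalization.Away.mk_surjective 𝒜 hs x
  obtain ⟨m, b, hb, rfl⟩ := HomogeneousLocalization.Away.mk_surjective 𝒜 hs y
  rw [HomogeneousLocalization.Away.map_mk, HomogeneousLocalization.Away.map_mk,
    HomogeneousLocalization.ext_iff_val, HomogeneousLocalization.Away.val_mk,
    HomogeneousLocalization.Away.val_mk, Localization.mk_eq_mk_iff,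
    Localization.r_iff_exists] at hxy
  rw [HomogeneousLocalization.ext_iff_val, HomogeneousLocalization.Away.val_mk,
    HomogeneousLocalization.Away.val_mk, Localization.mk_eq_mk_iff,
    Localization.r_iff_exists]
  obtain ⟨⟨_, r, rfl⟩, hr⟩ := hxy
  refine ⟨⟨_, r, rfl⟩, ?_⟩
  apply hf
  simp only at hr ⊢
  simpa only [map_mul, map_pow] using hr

lemma isIso_proj_map_chart
    (hirr : HomogeneousIdeal.irrelevant ℬ ≤
      HomogeneousIdeal.map f (HomogeneousIdeal.irrelevant 𝒜))
    (hf : Function.Bijective f) {i : ℕ} (hi : 0 < i) (s : A) (hs : s ∈ 𝒜 i) :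
    IsIso (pullback.snd (Proj.map f hirr) (Proj.awayι 𝒜 s hs hi)) := by
  have h := isPullback_proj_map f hirr hi s hs
  have h1 : pullback.snd (Proj.map f hirr) (Proj.awayι 𝒜 s hs hi) =
      h.flip.isoPullback.inv ≫
        Spec.map (CommRingCat.ofHom (HomogeneousLocalization.Away.map f s)) :=
    (h.flip.isoPullback_inv_snd).symm
  have h2 : IsIso (CommRingCat.ofHom (HomogeneousLocalization.Away.map f s)) := by
    rw [ConcreteCategory.isIso_iff_bijective]
    exact ⟨away_map_injective f hf.1 s hs, away_map_surjective f hf.2 s hs⟩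
  rw [h1]
  infer_instance

lemma isIso_proj_map
    (hirr : HomogeneousIdeal.irrelevant ℬ ≤
      HomogeneousIdeal.map f (HomogeneousIdeal.irrelevant 𝒜))
    (hf : Function.Bijective f) : IsIso (Proj.map f hirr) := by
  have h : (MorphismProperty.isomorphisms Scheme.{0}) (Proj.map f hirr) := by
    apply IsZariskiLocalAtTarget.of_openCover (Proj.affineOpenCover 𝒜).openCover
    rintro (⟨i, s⟩ : Σ i : PNat, 𝒜 i)
    exact isIso_proj_map_chart f hirr hf i.2 s.1 s.2
  exact h

end general

variable (k : Type) [Field k]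

/-- the zero ideal -/
noncomputable abbrev JP : HI (Fin 4) k := ⊥

lemma renMap_bijective : Function.Bijective (renMap (JP k) (Equiv.refl (Fin 4))) := by
  refine ⟨?_, renMap_surjective _ _⟩
  intro x y h
  rw [renMap_apply, renMap_apply] at h
  have h1 := Ideal.Quotient.eq.1 h
  have h2 : (JP k).toIdeal = ⊥ := rfl
  rw [h2, Ideal.mem_bot, sub_eq_zero] at h1
  simpa using h1

lemma isIso_emb : IsIso (emb (JP k) (Equiv.refl (Fin 4))) :=
  isIso_proj_map _ _ (renMap_bijective k)

/-- the isomorphism with projective space -/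
noncomputable def embP : V (JP k) ⟶ PSpace 3 k := emb (JP k) (Equiv.refl (Fin 4))

instance isIso_embP : IsIso (embP k) := isIso_emb k

lemma embP_str : embP k ≫ PSpace.str 3 k = V.str (JP k) := emb_str (JP k) (Equiv.refl (Fin 4))

/-- `V ⊥` is projective space -/
lemma exists_iso_P3 : ∃ e : V (JP k) ≅ PSpace 3 k, e.hom ≫ PSpace.str 3 k = V.str (JP k) :=
  ⟨asIso (embP k), embP_str k⟩

end Pool.Agent.TH179.QT
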