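import Mathlib

/-!
Five pairwise proportional polynomial vector fields of projective 3-space are linearly dependent.
-/

set_option autoImplicit false

open MvPolynomial

namespace Pool.Agent.TH179.QT

variable {k : Type} [Field k]

lemma deg_mul {f g : MvPolynomial (Fin 3) k} (hf : f ≠ 0) (hg : g ≠ 0) :
    (f * g).totalDegree = f.totalDegree + g.totalDegree :=
  totalDegree_mul_of_isDomain hf hg

/-- polynomials of degree at most one: five of them are dependent -/
lemma exists_relation (f : Fin 5 → MvPolynomial (Fin 3) k) (hf : ∀ l, (f l).totalDegree ≤ 1) :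
    ∃ c : Fin 5 → k, (∃ l, c l ≠ 0) ∧ ∑ l, C (c l) * f l = 0 := by
  classical
  let m : Option (Fin 3) → (Fin 3 →₀ ℕ) := fun o => o.elim 0 (fun i => Finsupp.single i 1)
  let w : Fin 5 → (Option (Fin 3) → k) := fun l o => coeff (m o) (f l)
  have hdep : ¬ LinearIndependent k w := by
    intro h
    have h1 := h.fintype_card_le_finrank
    simp at h1
  obtain ⟨c, hc, l, hl⟩ := Fintype.not_linearIndependent_iff.1 hdep
  refine ⟨c, ⟨l, hl⟩, ?_⟩
  ext d
  rw [coeff_sum, coeff_zero]
  simp only [coeff_C_mul]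
  have hcase : (∃ o, d = m o) ∨ 1 < d.degree := by
    by_cases h0 : d.degree = 0
    · left
      exact ⟨none, (Finsupp.degree_eq_zero_iff d).1 h0⟩
    · by_cases h1 : d.degree = 1
      · left
        have h3 : ∑ i : Fin 3, d i = 1 := by
          rw [← h1, Finsupp.degree_eq_sum]
        obtain ⟨i, hi⟩ : ∃ i, d i ≠ 0 := by
          by_contra hcon
          push Not at hcon
          rw [Finset.sum_eq_zero (fun i _ => hcon i)] at h3
          omega
        refine ⟨some i, ?_⟩
        ext j
        rw [← Finset.add_sum_erase _ _ (Finset.mem_univ i)] at h3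
        by_cases hji : i = j
        · subst hji
          have : d i = 1 := by omega
          simp [m, this]
        · have h4 : d j ≤ ∑ i ∈ Finset.univ.erase i, d i :=
            Finset.single_le_sum (f := fun i => d i) (fun _ _ => Nat.zero_le _)
              (Finset.mem_erase.2 ⟨fun h => hji h.symm, Finset.mem_univ j⟩)
          have : d j = 0 := by omega
          simp [m, this, hji]
      · right
        omega
  rcases hcase with ⟨o, rfl⟩ | h1
  · have h2 := congrFun hc o
    simpa [w] using h2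
  · refine Finset.sum_eq_zero (fun l _ => ?_)
    rw [coeff_eq_zero_of_totalDegree_lt, mul_zero]
    exact lt_of_le_of_lt (hf l) h1

/-- a primitive vector -/
lemma exists_primitive (p : Fin 3 → MvPolynomial (Fin 3) k) (j₀ : Fin 3) (h : p j₀ ≠ 0) :
    ∃ (g : MvPolynomial (Fin 3) k) (v : Fin 3 → MvPolynomial (Fin 3) k), g ≠ 0 ∧
      (∀ j, p j = g * v j) ∧ ∀ a b : MvPolynomial (Fin 3) k, (∀ j, a ∣ b * v j) → a ∣ b := by
  classical
  let _ : StrongNormalizationMonoid (MvPolynomial (Fin 3) k) :=
    UniqueFactorizationMonoid.strongNormalizationMonoid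
  let _ : NormalizedGCDMonoid (MvPolynomial (Fin 3) k) :=
    UniqueFactorizationMonoid.toNormalizedGCDMonoid _
  obtain ⟨v, hv, hg⟩ := Finset.extract_gcd p (s := Finset.univ) ⟨j₀, Finset.mem_univ _⟩
  refine ⟨Finset.univ.gcd p, v, ?_, fun j => hv j (Finset.mem_univ _), ?_⟩
  · intro h0
    exact h (Finset.gcd_eq_zero_iff.1 h0 j₀ (Finset.mem_univ _))
  · intro a b hab
    have h1 : a ∣ Finset.univ.gcd (fun j => b * v j) := Finset.dvd_gcd (fun j _ => hab j)
    have h2 := (Finset.gcd_mul_left' (s := Finset.univ) (f := v) b).dvd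
    rw [hg, mul_one] at h2
    exact h1.trans h2

theorem poly_core (P : Fin 5 → Fin 3 → MvPolynomial (Fin 3) k)
    (h1 : ∀ l i, (P l i).totalDegree ≤ 2)
    (h2 : ∀ l i j, (X i * P l j - X j * P l i).totalDegree ≤ 2)
    (h3 : ∀ l m i j, P l i * P m j = P l j * P m i) :
    ∃ c : Fin 5 → k, (∃ l, c l ≠ 0) ∧ ∀ j, ∑ l, C (c l) * P l j = 0 := by
  classical
  by_cases hall : ∀ l j, P l j = 0
  · exact ⟨fun _ => 1, ⟨0, one_ne_zero⟩, fun j => by simp [hall]⟩
  push Not at hall
  obtain ⟨l₀, j₀, hne⟩ := hall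
  obtain ⟨g, v, hg, hv, hprim⟩ := exists_primitive (P l₀) j₀ hne
  have hv0 : v j₀ ≠ 0 := by
    intro h
    exact hne (by rw [hv, h, mul_zero])
  have hrel : ∀ l i j, P l i * v j = P l j * v i := by
    intro l i j
    apply mul_left_cancel₀ hg
    have h := h3 l l₀ i j
    rw [hv, hv] at h
    linear_combination h
  have hex : ∀ l, ∃ f, ∀ j, P l j = f * v j := by
    intro l
    have hd : v j₀ ∣ P l j₀ := by
      apply hprim
      intro j
      rw [hrel l j₀ j]
      exact Dvd.intro_left _ rfl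
    obtain ⟨f, hf⟩ := hd
    refine ⟨f, fun j => ?_⟩
    apply mul_right_cancel₀ hv0
    rw [hrel l j j₀, hf]
    ring
  choose f hf using hex
  have hdeg : ∀ l, (f l).totalDegree ≤ 1 := by
    intro l
    by_cases hfl : f l = 0
    · rw [hfl]; simp
    by_cases hcon : ∃ j, (v j).totalDegree ≠ 0
    · obtain ⟨j, hj⟩ := hcon
      have hvj : v j ≠ 0 := by
        rintro h
        rw [h] at hj
        simp at hj
      have h := h1 l j
      rw [hf, deg_mul hfl hvj] at h
      omega
    · push Not at hcon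
      have ha : ∀ j, v j = C (coeff 0 (v j)) := fun j => (totalDegree_eq_zero_iff_eq_C).1 (hcon j)
      obtain ⟨i, hi⟩ : ∃ i : Fin 3, i ≠ j₀ := exists_ne j₀
      have h := h2 l i j₀
      have h4 : X i * P l j₀ - X j₀ * P l i = f l * (C (coeff 0 (v j₀)) * X i -
          C (coeff 0 (v i)) * X j₀) := by
        rw [hf, hf, ← ha, ← ha]
        ring
      have hc0 : coeff 0 (v j₀) ≠ 0 := by
        intro h0
        apply hv0
        rw [ha j₀, h0, map_zero]
      have hs : (Finsupp.single i 1 : Fin 3 →₀ ℕ) ≠ Finsupp.single j₀ 1 := by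
        intro h0
        rw [Finsupp.single_left_inj one_ne_zero] at h0
        exact hi h0
      have hco : coeff (Finsupp.single i 1) (C (coeff 0 (v j₀)) * X i -
          C (coeff 0 (v i)) * X j₀) = coeff 0 (v j₀) := by
        rw [coeff_sub, coeff_C_mul, coeff_C_mul, coeff_X, coeff_X, if_pos rfl, if_neg hs.symm]
        ring
      have hne' : (C (coeff 0 (v j₀)) * X i - C (coeff 0 (v i)) * X j₀ :
          MvPolynomial (Fin 3) k) ≠ 0 := by
        intro h0
        rw [h0, coeff_zero] at hco
        exact hc0 hco.symm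
      have hd1 : 1 ≤ (C (coeff 0 (v j₀)) * X i - C (coeff 0 (v i)) * X j₀ :
          MvPolynomial (Fin 3) k).totalDegree := by
        by_contra hlt
        have hz := coeff_eq_zero_of_totalDegree_lt (f := (C (coeff 0 (v j₀)) * X i -
          C (coeff 0 (v i)) * X j₀ : MvPolynomial (Fin 3) k)) (d := Finsupp.single i 1) (by
            have : (∑ j ∈ (Finsupp.single i 1 : Fin 3 →₀ ℕ).support,
              (Finsupp.single i 1 : Fin 3 →₀ ℕ) j) = 1 := by
              rw [Finsupp.support_single _ one_ne_zero]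
              simp
            omega)
        rw [hco] at hz
        exact hc0 hz
      rw [h4, deg_mul hfl hne'] at h
      omega
  obtain ⟨c, hc, hrel'⟩ := exists_relation f hdeg
  refine ⟨c, hc, fun j => ?_⟩
  have h5 : ∑ l, C (c l) * P l j = (∑ l, C (c l) * f l) * v j := by
    rw [Finset.sum_mul]
    refine Finset.sum_congr rfl (fun l _ => ?_)
    rw [hf]
    ring
  rw [h5, hrel', zero_mul]

/-- degree bound from a relation -/
lemma deg_le_two {P a : MvPolynomial (Fin 3) k} {i : Fin 3} {n : ℕ} (ha : a.totalDegree ≤ n)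
    (h : P * X i ^ n = X i ^ 2 * a) : P.totalDegree ≤ 2 := by
  by_cases hP : P = 0
  · rw [hP]; simp
  have hX : (X i ^ n : MvPolynomial (Fin 3) k) ≠ 0 := pow_ne_zero _ (X_ne_zero i)
  have ha0 : a ≠ 0 := by
    rintro rfl
    rw [mul_zero] at h
    rcases mul_eq_zero.1 h with h | h
    · exact hP h
    · exact hX h
  have h1 := congrArg totalDegree h
  rw [deg_mul hP hX, deg_mul (pow_ne_zero _ (X_ne_zero i)) ha0, totalDegree_X_pow,
    totalDegree_X_pow] at h1
  omega

/-- the field version -/
theorem field_core {K : Type} [Field K] (φ : MvPolynomial (Fin 3) k →+* K)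
    (hφ : Function.Injective φ) (E : Fin 5 → K → K)
    (hadd : ∀ l a b, E l (a + b) = E l a + E l b)
    (hmul : ∀ l a b, E l (a * b) = a * E l b + b * E l a)
    (h0 : ∀ l j, ∃ p, E l (φ (X j)) = φ p)
    (h1 : ∀ l i, ∃ (n : ℕ) (a : MvPolynomial (Fin 3) k), a.totalDegree ≤ n ∧
      E l ((φ (X i))⁻¹) * φ (X i) ^ n = φ a)
    (h2 : ∀ l i j, ∃ (n : ℕ) (a : MvPolynomial (Fin 3) k), a.totalDegree ≤ n ∧
      E l (φ (X j) * (φ (X i))⁻¹) * φ (X i) ^ n = φ a)
    (h3 : ∀ l m u v, E l u * E m v = E l v * E m u) :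
    ∃ c : Fin 5 → k, (∃ l, c l ≠ 0) ∧ ∀ j, ∑ l, φ (C (c l)) * E l (φ (X j)) = 0 := by
  choose P hP using h0
  have hX : ∀ i, φ (X i) ≠ 0 := fun i h => X_ne_zero (R := k) i (hφ (by rw [h, map_zero]))
  have hone : ∀ l, E l 1 = 0 := by
    intro l
    have := hmul l 1 1
    rw [mul_one, one_mul] at this
    exact left_eq_add.mp this
  have hinv : ∀ l i, E l ((φ (X i))⁻¹) * φ (X i) ^ 2 = - φ (P l i) := by
    intro l i
    have h := hmul l (φ (X i)) ((φ (X i))⁻¹)
    rw [mul_inv_cancel₀ (hX i), hone, hP] at h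
    have h' := congrArg (fun z => z * φ (X i)) h
    simp only [zero_mul, add_mul] at h'
    have e : (φ (X i))⁻¹ * φ (P l i) * φ (X i) = φ (P l i) := by
      field_simp [hX i]
    rw [e] at h'
    linear_combination -h'
  have hdinv : ∀ i, (φ (X i))⁻¹ * φ (X i) = 1 := fun i => inv_mul_cancel₀ (hX i)
  have q1 : ∀ l i, (P l i).totalDegree ≤ 2 := by
    intro l i
    obtain ⟨n, a, ha, hE⟩ := h1 l i
    have e : P l i * X i ^ n = X i ^ 2 * (-a) := by
      apply hφ
      simp only [map_mul, map_pow, map_neg]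
      rw [← hE]
      linear_combination (φ (X i) ^ n) * hinv l i
    exact deg_le_two (by rw [totalDegree_neg]; exact ha) e
  have q2 : ∀ l i j, (X i * P l j - X j * P l i).totalDegree ≤ 2 := by
    intro l i j
    obtain ⟨n, a, ha, hE⟩ := h2 l i j
    have e : (X i * P l j - X j * P l i) * X i ^ n = X i ^ 2 * a := by
      apply hφ
      simp only [map_mul, map_pow, map_sub]
      rw [← hE, hmul, hP]
      linear_combination (φ (X j) * φ (X i) ^ n) * (-hinv l i) -
        (φ (P l j) * φ (X i) ^ (n + 1)) * hdinv i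
    exact deg_le_two ha e
  have q3 : ∀ l m i j, P l i * P m j = P l j * P m i := by
    intro l m i j
    apply hφ
    rw [map_mul, map_mul, ← hP, ← hP, ← hP, ← hP]
    exact h3 l m _ _
  obtain ⟨c, hc, hrel⟩ := poly_core P q1 q2 q3
  refine ⟨c, hc, fun j => ?_⟩
  have h := congrArg φ (hrel j)
  rw [map_sum, map_zero] at h
  rw [← h]
  refine Finset.sum_congr rfl (fun l _ => ?_)
  rw [hP, map_mul]

end Pool.Agent.TH179.QT
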