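import Pool.Agent.TH179.QT.Fld
import Pool.Agent.TH179.QT.P3
import Pool.Agent.TH179.QT.Poly

/-!
The quadric threefold is not isomorphic to projective space in characteristic two.
-/

set_option autoImplicit false

open MvPolynomial AlgebraicGeometry CategoryTheory TopologicalSpace
open Pool.Agent.Helper198.Sch
open Pool.Agent.H835R3 (gam gam_injective gam_res genericPoint_mem eq_of_gam)
open Pool.Agent.H835R5 (sc cJ cst rs taskCmp)

namespace Pool.Agent.TH179.QT

attribute [local instance] MvPolynomial.gradedAlgebra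

section gen

/-- naturality of pull-back of functions -/
lemma app_rs {X Y : Scheme.{0}} (f : X ⟶ Y) {U W : Y.Opens} (h : W ≤ U) (s : Γ(Y, U)) :
    (f.app W).hom (rs h s) = rs (f.preimage_mono h) ((f.app U).hom s) := by
  have h1 := f.naturality (homOfLE h).op
  exact congrArg (fun g => g.hom s) h1

end gen

variable {k : Type} [Field k] [CharP k 2]

/-- a rational point of a chart of projective space -/
noncomputable def ptP (k : Type) [Field k] (i : Fin 4) : Ch (JP k) i →ₐ[k] k :=
  chLift (JP k) i (fun _ => 1) rfl (fun g hg => by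
    have h2 : g ∈ (⊥ : Ideal (MvPolynomial (Fin 4) k)) := hg
    rw [Ideal.mem_bot] at h2
    rw [h2, map_zero])

variable (f : V (JQ k) ≅ V (JP k))

/-- preimage of the charts -/
noncomputable abbrev UP (i : Fin 4) : (V (JQ k)).Opens := f.hom ⁻¹ᵁ (V.D (JP k) i)

lemma etaP (i : Fin 4) : genericPoint (V (JQ k)) ∈ UP f i := by
  let y : Spec (.of k) := IsLocalRing.closedPoint k
  let x : V (JP k) := V.chart (JP k) i (Spec.map (CommRingCat.ofHom (ptP k i).toRingHom) y)
  have hx : x ∈ V.D (JP k) i := (V.mem_range_chart (JP k) i x).1 ⟨_, rfl⟩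
  have h : f.hom (f.inv x) = x := by
    rw [← Scheme.Hom.comp_apply, f.inv_hom_id]
    rfl
  refine genericPoint_mem _ (f.inv x) ?_
  change f.hom (f.inv x) ∈ V.D (JP k) i
  rw [h]
  exact hx

/-- functions on the charts of projective space in the function field of the quadric -/
noncomputable def tau (i : Fin 4) : Ch (JP k) i →+* KQ k :=
  (gam (UP f i) (etaP f i)).comp ((f.hom.app (V.D (JP k) i)).hom.comp (sc (JP k) i))

lemma tau_res (i : Fin 4) {W : (V (JP k)).Opens} (h : W ≤ V.D (JP k) i)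
    (hW : genericPoint (V (JQ k)) ∈ f.hom ⁻¹ᵁ W) (z : Ch (JP k) i) :
    gam (f.hom ⁻¹ᵁ W) hW ((f.hom.app W).hom (rs h (sc (JP k) i z))) = tau f i z := by
  rw [app_rs]
  exact gam_res (f.hom.preimage_mono h) hW _

lemma tau_mul (c c' a : Fin 4) :
    tau f c (frac (JP k) c a) = tau f c (frac (JP k) c c') * tau f c' (frac (JP k) c' a) := by
  have hW : genericPoint (V (JQ k)) ∈ f.hom ⁻¹ᵁ (V.D (JP k) c ⊓ V.D (JP k) c') :=
    ⟨etaP f c, etaP f c'⟩
  have h1 := congrArg (fun s => gam (f.hom ⁻¹ᵁ (V.D (JP k) c ⊓ V.D (JP k) c')) hW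
    ((f.hom.app (V.D (JP k) c ⊓ V.D (JP k) c')).hom s)) (sc_mul (JP k) c c' a)
  simp only [map_mul] at h1
  rw [tau_res f c inf_le_left hW, tau_res f c inf_le_left hW, tau_res f c' inf_le_right hW] at h1
  exact h1

lemma tau_const (hf : f.hom ≫ V.str (JP k) = V.str (JQ k)) (i : Fin 4) (a : k) :
    tau f i (algebraMap k _ a) = kap (JQ k) a := by
  rw [tau, RingHom.comp_apply, RingHom.comp_apply, sc_const, ← gam_cst (UP f i) (etaP f i)]
  congr 1
  have h1 := app_rs f.hom (le_top : V.D (JP k) i ≤ ⊤) (cJ (JP k) a)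
  refine h1.trans ?_
  have h2 : (f.hom.app ⊤).hom (cJ (JP k) a) = cJ (JQ k) a := by
    have h3 : (f.hom ≫ V.str (JP k)).appTop = (V.str (JQ k)).appTop := by rw [hf]
    rw [Scheme.Hom.comp_appTop] at h3
    exact congrArg (fun g => g.hom ((Scheme.ΓSpecIso (.of k)).inv.hom a)) h3
  rw [h2]
  rfl

lemma app_bijective (W : (V (JP k)).Opens) : Function.Bijective (f.hom.app W).hom :=
  ConcreteCategory.bijective_of_isIso (f.hom.app W)

lemma tau_injective (i : Fin 4) : Function.Injective (tau f i) :=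
  (gam_injective _ _).comp ((app_bijective f _).1.comp (sc_bij (JP k) i).1)

/-- every function on a chart is a polynomial in the coordinates -/
lemma exists_tau (i : Fin 4) (s : Γ(V (JQ k), UP f i)) :
    ∃ p : MvPolynomial (Fin 4) k, gam (UP f i) (etaP f i) s = tau f i (aeval (frac (JP k) i) p) := by
  obtain ⟨s', rfl⟩ := (app_bijective f _).2 s
  obtain ⟨z, rfl⟩ := (sc_bij (JP k) i).2 s'
  obtain ⟨p, rfl⟩ := aeval_frac_surjective (JP k) i z
  exact ⟨p, rfl⟩

/-- the coordinate ring of affine space in the function field -/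
noncomputable def phi : MvPolynomial (Fin 3) k →+* KQ k :=
  (tau f 0).comp (aeval (fun j : Fin 3 => frac (JP k) 0 j.succ) :
    MvPolynomial (Fin 3) k →ₐ[k] Ch (JP k) 0).toRingHom

lemma phi_X (j : Fin 3) : phi f (X j) = tau f 0 (frac (JP k) 0 j.succ) := by
  change tau f 0 (aeval (fun j : Fin 3 => frac (JP k) 0 j.succ) (X j)) = _
  rw [aeval_X]

lemma phi_C (hf : f.hom ≫ V.str (JP k) = V.str (JQ k)) (a : k) :
    phi f (C a) = kap (JQ k) a := by
  rw [← tau_const f hf 0 a]
  change tau f 0 (aeval (fun j : Fin 3 => frac (JP k) 0 j.succ) (C a)) = _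
  rw [← MvPolynomial.algebraMap_eq, AlgHom.commutes]

lemma phi_injective : Function.Injective (phi f) := by
  refine (tau_injective f 0).comp ?_
  let u : Fin 4 → MvPolynomial (Fin 3) k := Fin.cons 1 X
  have hu0 : u 0 = 1 := rfl
  have hu : ∀ g ∈ (JP k).toIdeal, aeval u g = 0 := fun g hg => by
    have h2 : g ∈ (⊥ : Ideal (MvPolynomial (Fin 4) k)) := hg
    rw [Ideal.mem_bot] at h2
    rw [h2, map_zero]
  have hcomp : (chLift (JP k) 0 u hu0 hu).comp (aeval (fun j : Fin 3 => frac (JP k) 0 j.succ)) =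
      AlgHom.id k (MvPolynomial (Fin 3) k) := by
    apply MvPolynomial.algHom_ext
    intro j
    rw [AlgHom.comp_apply, aeval_X, chLift_frac]
    rfl
  intro x y hxy
  have h1 := congrArg (chLift (JP k) 0 u hu0 hu) hxy
  have h2 : ∀ z, (chLift (JP k) 0 u hu0 hu) (aeval (fun j : Fin 3 => frac (JP k) 0 j.succ) z) = z :=
    fun z => congrArg (fun g => g z) hcomp
  have h3 : (chLift (JP k) 0 u hu0 hu) (aeval (fun j : Fin 3 => frac (JP k) 0 j.succ) x) =
    (chLift (JP k) 0 u hu0 hu) (aeval (fun j : Fin 3 => frac (JP k) 0 j.succ) y) := h1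
  rwa [h2, h2] at h3

/-- the coordinates `X_j / X_0` of projective space as polynomials -/
noncomputable def yy (k : Type) [Field k] : Fin 4 → MvPolynomial (Fin 3) k := Fin.cons 1 X

lemma phi_yy (a : Fin 4) : phi f (yy k a) = tau f 0 (frac (JP k) 0 a) := by
  refine Fin.cases ?_ (fun j => ?_) a
  · have h : yy k 0 = 1 := rfl
    rw [h, map_one, frac_self, map_one]
  · have h : yy k j.succ = X j := rfl
    rw [h, phi_X]

lemma phi_X_mul (i : Fin 3) (a : Fin 4) :
    phi f (X i) * tau f i.succ (frac (JP k) i.succ a) = phi f (yy k a) := by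
  rw [phi_yy, phi_X, ← tau_mul]

/-- functions with controlled poles -/
def GG (i : Fin 3) (z : KQ k) : Prop :=
  ∃ (n : ℕ) (a : MvPolynomial (Fin 3) k), a.totalDegree ≤ n ∧ z * phi f (X i) ^ n = phi f a

lemma GG_add (i : Fin 3) {z w : KQ k} (hz : GG f i z) (hw : GG f i w) : GG f i (z + w) := by
  obtain ⟨n, a, ha, hza⟩ := hz
  obtain ⟨m, b, hb, hwb⟩ := hw
  refine ⟨n + m, a * X i ^ m + b * X i ^ n, ?_, ?_⟩
  · refine (totalDegree_add _ _).trans (max_le ?_ ?_)
    · refine (totalDegree_mul _ _).trans ?_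
      rw [totalDegree_X_pow]
      omega
    · refine (totalDegree_mul _ _).trans ?_
      rw [totalDegree_X_pow]
      omega
  · rw [map_add, map_mul, map_mul, map_pow, map_pow, ← hza, ← hwb]
    ring

lemma GG_mul (i : Fin 3) {z w : KQ k} (hz : GG f i z) (hw : GG f i w) : GG f i (z * w) := by
  obtain ⟨n, a, ha, hza⟩ := hz
  obtain ⟨m, b, hb, hwb⟩ := hw
  refine ⟨n + m, a * b, ?_, ?_⟩
  · exact (totalDegree_mul _ _).trans (add_le_add ha hb)
  · rw [map_mul, ← hza, ← hwb]
    ring

lemma totalDegree_yy (a : Fin 4) : (yy k a).totalDegree ≤ 1 := by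
  refine Fin.cases ?_ (fun j => ?_) a
  · have h : yy k 0 = 1 := rfl
    rw [h, totalDegree_one]
    omega
  · have h : yy k j.succ = X j := rfl
    rw [h, totalDegree_X]

lemma GG_tau (hf : f.hom ≫ V.str (JP k) = V.str (JQ k)) (i : Fin 3) (p : MvPolynomial (Fin 4) k) :
    GG f i (tau f i.succ (aeval (frac (JP k) i.succ) p)) := by
  induction p using MvPolynomial.induction_on with
  | C a =>
    refine ⟨0, C a, by rw [totalDegree_C], ?_⟩
    rw [pow_zero, mul_one, phi_C f hf, ← MvPolynomial.algebraMap_eq, AlgHom.commutes,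
      tau_const f hf]
  | add p q hp hq =>
    rw [map_add, map_add]
    exact GG_add f i hp hq
  | mul_X p a hp =>
    rw [map_mul, map_mul, aeval_X]
    refine GG_mul f i hp ⟨1, yy k a, totalDegree_yy a, ?_⟩
    rw [pow_one, mul_comm, phi_X_mul]

/-- the vector fields in the coordinates of projective space -/
lemma exists_relation_field (hf : f.hom ≫ V.str (JP k) = V.str (JQ k)) :
    ∃ c : Fin 5 → k, (∃ l, c l ≠ 0) ∧
      ∀ j, ∑ l, phi f (C (c l)) * (xx k l * EE k (phi f (X j))) = 0 := by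
  have hne : ∀ i : Fin 3, phi f (X i) ≠ 0 := fun i h =>
    X_ne_zero (R := k) i (phi_injective f (by rw [h, map_zero]))
  have hG : ∀ (l : Fin 5) (i : Fin 3) (z : Ch (JP k) i.succ),
      GG f i (xx k l * EE k (tau f i.succ z)) := by
    intro l i z
    obtain ⟨p, hp⟩ := exists_tau f i.succ (psi k l (UP f i.succ)
      ((f.hom.app (V.D (JP k) i.succ)).hom (sc (JP k) i.succ z)))
    rw [gam_psi k l (UP f i.succ) (etaP f i.succ)] at hp
    have hp' : xx k l * EE k (tau f i.succ z) =
      tau f i.succ (aeval (frac (JP k) i.succ) p) := hp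
    rw [hp']
    exact GG_tau f hf i p
  have hmul1 : ∀ i : Fin 3, tau f i.succ (frac (JP k) i.succ 0) = (phi f (X i))⁻¹ := by
    intro i
    apply eq_inv_of_mul_eq_one_right
    have h : yy k 0 = 1 := rfl
    rw [phi_X_mul, h, map_one]
  have hmul2 : ∀ i j : Fin 3, tau f i.succ (frac (JP k) i.succ j.succ) =
      phi f (X j) * (phi f (X i))⁻¹ := by
    intro i j
    rw [← div_eq_mul_inv, eq_div_iff (hne i), mul_comm, phi_X_mul]
    rfl
  refine field_core (phi f) (phi_injective f) (fun l z => xx k l * EE k z) ?_ ?_ ?_ ?_ ?_ ?_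
  · intro l a b
    simp only [map_add, mul_add]
  · intro l a b
    simp only [EE_mul]
    ring
  · intro l j
    obtain ⟨p, hp⟩ := exists_tau f 0 (psi k l (UP f 0)
      ((f.hom.app (V.D (JP k) 0)).hom (sc (JP k) 0 (frac (JP k) 0 j.succ))))
    rw [gam_psi k l (UP f 0) (etaP f 0)] at hp
    have hp' : xx k l * EE k (tau f 0 (frac (JP k) 0 j.succ)) =
      tau f 0 (aeval (frac (JP k) 0) p) := hp
    refine ⟨aeval (yy k) p, ?_⟩
    rw [phi_X, hp']
    clear hp hp'
    induction p using MvPolynomial.induction_on with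
    | C a =>
      rw [← MvPolynomial.algebraMap_eq, AlgHom.commutes, AlgHom.commutes, tau_const f hf,
        MvPolynomial.algebraMap_eq, phi_C f hf]
    | add p q hp hq => rw [map_add, map_add, map_add, map_add, hp, hq]
    | mul_X p a hp => rw [map_mul, map_mul, map_mul, map_mul, hp, aeval_X, aeval_X, phi_yy]
  · intro l i
    have h := hG l i (frac (JP k) i.succ 0)
    rw [hmul1] at h
    exact h
  · intro l i j
    have h := hG l i (frac (JP k) i.succ j.succ)
    rw [hmul2] at h
    exact h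
  · intro l m u v
    ring

/-- the coordinates are independent -/
lemma xx_independent (c : Fin 5 → k) (h : ∑ l, kap (JQ k) (c l) * xx k l = 0) : ∀ l, c l = 0 := by
  have h1 : ∑ l, C (c l) * uu k 0 l = 0 := by
    have e : ∑ l, kap (JQ k) (c l) * xx k l = th (cc 0) (eta k 0)
        (∑ l, algebraMap k _ (c l) * frac (JQ k) (cc 0) l) := by
      rw [map_sum]
      refine Finset.sum_congr rfl (fun l _ => ?_)
      rw [map_mul, th_const]
      rfl
    rw [e] at h
    have h2 := th_injective (cc 0) (eta k 0) (h.trans (map_zero _).symm)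
    have h3 := congrArg (chE k 0) h2
    rw [map_sum, map_zero] at h3
    rw [← h3]
    refine Finset.sum_congr rfl (fun l _ => ?_)
    rw [map_mul, chE_frac, AlgEquiv.commutes]
    rfl
  have h4 : C (c 0) * X 0 + C (c 1) + C (c 2) * ww k + C (c 3) * X 1 + C (c 4) * X 2 = 0 := by
    rw [Fin.sum_univ_five] at h1
    simpa [uu] using h1
  have k1 : c 1 = 0 := by
    have := congrArg (MvPolynomial.eval (0 : Fin 3 → k)) h4
    simpa [ww] using this
  have e1 := congrArg (MvPolynomial.eval (![0, 1, 0] : Fin 3 → k)) h4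
  have e2 := congrArg (MvPolynomial.eval (![0, 0, 1] : Fin 3 → k)) h4
  have e3 := congrArg (MvPolynomial.eval (![0, 1, 1] : Fin 3 → k)) h4
  have e4 := congrArg (MvPolynomial.eval (![1, 0, 0] : Fin 3 → k)) h4
  simp [ww, k1] at e1 e2 e3 e4
  have k2 : c 2 = 0 := by
    rw [e1, e2] at e3
    simpa using e3
  have k0 : c 0 = 0 := by
    rw [k2] at e4
    simpa using e4
  intro l
  fin_cases l
  · exact k0
  · exact k1
  · exact k2
  · exact e1
  · exact e2

lemma EE_ne : ∃ s : Γ(V (JQ k), UP f 0), EE k (gam (UP f 0) (etaP f 0) s) ≠ 0 := by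
  by_contra hcon
  push Not at hcon
  have hne2 : Nonempty (UP f 0) := ⟨⟨_, etaP f 0⟩⟩
  have haff : IsAffineOpen (UP f 0) := (affine_D (JP k) 0).preimage_of_isIso f.hom
  have hfr : IsFractionRing Γ(V (JQ k), UP f 0) (V (JQ k)).functionField :=
    functionField_isFractionRing_of_isAffineOpen (V (JQ k)) (UP f 0) haff
  obtain ⟨⟨a, s⟩, has⟩ := IsLocalization.surj (nonZeroDivisors Γ(V (JQ k), UP f 0)) (xx k 0)
  have has' : xx k 0 * gam (UP f 0) (etaP f 0) s = gam (UP f 0) (etaP f 0) a := has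
  have hs : gam (UP f 0) (etaP f 0) (s : Γ(V (JQ k), UP f 0)) ≠ 0 := by
    intro h
    exact nonZeroDivisors.ne_zero s.2 (gam_injective (UP f 0) (etaP f 0) (by rw [h, map_zero]))
  have h1 := congrArg (EE k) has'
  rw [EE_mul, hcon, hcon, mul_zero, zero_add, EE_xx, if_pos rfl, mul_one] at h1
  exact hs h1

theorem not_iso (hf : f.hom ≫ V.str (JP k) = V.str (JQ k)) : False := by
  obtain ⟨c, ⟨l₀, hl₀⟩, hc⟩ := exists_relation_field f hf
  have h1 : ∀ j, (∑ l, kap (JQ k) (c l) * xx k l) * EE k (phi f (X j)) = 0 := by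
    intro j
    rw [← hc j, Finset.sum_mul]
    refine Finset.sum_congr rfl (fun l _ => ?_)
    rw [phi_C f hf]
    ring
  have h2 : ∑ l, kap (JQ k) (c l) * xx k l ≠ 0 := fun h => hl₀ (xx_independent c h l₀)
  have h3 : ∀ j, EE k (phi f (X j)) = 0 := fun j => (mul_eq_zero.1 (h1 j)).resolve_left h2
  obtain ⟨s, hs⟩ := EE_ne f
  apply hs
  obtain ⟨p, hp⟩ := exists_tau f 0 s
  rw [hp]
  clear hp hs
  induction p using MvPolynomial.induction_on with
  | C a =>
    rw [← MvPolynomial.algebraMap_eq, AlgHom.commutes, tau_const f hf, EE_kap]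
  | add p q hp hq => rw [map_add, map_add, map_add, hp, hq, add_zero]
  | mul_X p a hp =>
    rw [map_mul, map_mul, EE_mul, hp, mul_zero, add_zero, aeval_X, ← phi_yy]
    refine Fin.cases ?_ (fun j => ?_) a
    · have h : yy k 0 = 1 := rfl
      rw [h, map_one, EE_one, mul_zero]
    · have h : yy k j.succ = X j := rfl
      rw [h, h3, mul_zero]

theorem not_isProjectiveSpace : ¬ IsProjectiveSpace 3 (V.str (JQ k)) := by
  rintro ⟨e, he⟩
  obtain ⟨e', he'⟩ := exists_iso_P3 k
  refine not_iso (e ≪≫ e'.symm) ?_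
  rw [Iso.trans_hom, Iso.symm_hom, Category.assoc, ← he', Iso.inv_hom_id_assoc]
  exact he

end Pool.Agent.TH179.QT
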