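import Pool.Agent.TH179.QT.Defs
import Pool.Agent.Helper198.SchQ

/-!
The quadric threefold `x0^2 + x1 x2 + x3 x4 = 0`.
-/

set_option autoImplicit false

open MvPolynomial AlgebraicGeometry CategoryTheory Limits
open Pool.Agent.Helper198.Sch

namespace Pool.Agent.TH179.QT

attribute [local instance] MvPolynomial.gradedAlgebra

section smooth

/-- affine space has a standard smooth presentation -/
noncomputable def presE (k : Type) [Field k] : Algebra.PreSubmersivePresentation k
    (MvPolynomial (Fin 3) k ⧸ Ideal.span (Set.range (Fin.elim0 : Fin 0 → MvPolynomial (Fin 3) k)))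
    (Fin 3) (Fin 0) :=
  Algebra.PreSubmersivePresentation.naive (v := (Fin.elim0 : Fin 0 → MvPolynomial (Fin 3) k))
    Fin.elim0 (fun a => a.elim0)

lemma smooth_aff (k : Type) [Field k] :
    Algebra.IsStandardSmoothOfRelativeDimension 3 k (MvPolynomial (Fin 3) k) := by
  have h1 : Algebra.IsStandardSmoothOfRelativeDimension 3 k
      (MvPolynomial (Fin 3) k ⧸
        Ideal.span (Set.range (Fin.elim0 : Fin 0 → MvPolynomial (Fin 3) k))) := by
    let P : Algebra.SubmersivePresentation k _ (Fin 3) (Fin 0) :=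
      { presE k with
        jacobian_isUnit := by
          have h : (presE k).jacobian = 1 := by
            rw [Algebra.PreSubmersivePresentation.jacobian_eq_jacobiMatrix_det]
            simp
          exact h ▸ isUnit_one }
    apply P.isStandardSmoothOfRelativeDimension
    simp [Algebra.Presentation.dimension]
  have e0 : Ideal.span (Set.range (Fin.elim0 : Fin 0 → MvPolynomial (Fin 3) k)) = ⊥ := by
    simp
  exact Algebra.IsStandardSmoothOfRelativeDimension.of_algEquiv 3
    ((Ideal.quotientEquivAlgOfEq k e0).trans (AlgEquiv.quotientBot k (MvPolynomial (Fin 3) k)))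

end smooth

variable (k : Type) [Field k]

/-- The quadratic form. -/
noncomputable def qf : MvPolynomial (Fin 5) k := X 0 ^ 2 + X 1 * X 2 + X 3 * X 4

lemma qf_hom : (qf k).IsHomogeneous 2 := by
  have h : ∀ i : Fin 5, (X i : MvPolynomial (Fin 5) k).IsHomogeneous 1 :=
    fun i => isHomogeneous_X k i
  exact (((h 0).pow 2).add ((h 1).mul (h 2))).add ((h 3).mul (h 4))

/-- The homogeneous ideal of the quadric. -/
noncomputable def JQ : HI (Fin 5) k :=
  HI.ofSet {qf k} (fun f hf => ⟨2, by rw [Set.mem_singleton_iff.1 hf]; exact qf_hom k⟩)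

lemma aeval_JQ {E : Type*} [CommRing E] [Algebra k E] (u : Fin 5 → E)
    (hu : u 0 ^ 2 + u 1 * u 2 + u 3 * u 4 = 0) :
    ∀ f ∈ (JQ k).toIdeal, aeval u f = 0 := by
  apply aeval_ofSet
  intro f hf
  rw [Set.mem_singleton_iff.1 hf, qf]
  simpa using hu

lemma rel_frac (c : Fin 5) : frac (JQ k) c 0 ^ 2 + frac (JQ k) c 1 * frac (JQ k) c 2 +
    frac (JQ k) c 3 * frac (JQ k) c 4 = 0 := by
  have h := aeval_frac_eq_zero (JQ k) c (qf k) (mem_ofSet (Set.mem_singleton _))
  simpa [qf] using h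

/-- the four charts -/
def cc : Fin 4 → Fin 5 := ![1, 2, 3, 4]

/-- the first free coordinate -/
def d1 : Fin 4 → Fin 5 := ![3, 3, 1, 1]

/-- the second free coordinate -/
def d2 : Fin 4 → Fin 5 := ![4, 4, 2, 2]

/-- the dependent coordinate -/
noncomputable def ww : MvPolynomial (Fin 3) k := -(X 0 ^ 2 + X 1 * X 2)

/-- the coordinates in the charts -/
noncomputable def uu : Fin 4 → Fin 5 → MvPolynomial (Fin 3) k :=
  ![![X 0, 1, ww k, X 1, X 2], ![X 0, ww k, 1, X 1, X 2], ![X 0, X 1, X 2, 1, ww k],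
    ![X 0, X 1, X 2, ww k, 1]]

lemma uu_rel (t : Fin 4) :
    uu k t 0 ^ 2 + uu k t 1 * uu k t 2 + uu k t 3 * uu k t 4 = 0 := by
  fin_cases t <;> simp [uu, ww]

lemma uu_cc (t : Fin 4) : uu k t (cc t) = 1 := by
  fin_cases t <;> rfl

lemma uu_zero (t : Fin 4) : uu k t 0 = X 0 := by
  fin_cases t <;> rfl

lemma uu_d1 (t : Fin 4) : uu k t (d1 t) = X 1 := by
  fin_cases t <;> rfl

lemma uu_d2 (t : Fin 4) : uu k t (d2 t) = X 2 := by
  fin_cases t <;> rfl

/-- chart map -/
noncomputable def chTo (t : Fin 4) : Ch (JQ k) (cc t) →ₐ[k] MvPolynomial (Fin 3) k :=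
  chLift (JQ k) (cc t) (uu k t) (uu_cc k t) (aeval_JQ k _ (uu_rel k t))

/-- the inverse chart map -/
noncomputable def chFrom (t : Fin 4) : MvPolynomial (Fin 3) k →ₐ[k] Ch (JQ k) (cc t) :=
  aeval ![frac (JQ k) (cc t) 0, frac (JQ k) (cc t) (d1 t), frac (JQ k) (cc t) (d2 t)]

lemma chFrom_X0 (t : Fin 4) : chFrom k t (X 0) = frac (JQ k) (cc t) 0 := by
  simp [chFrom]

lemma chFrom_X1 (t : Fin 4) : chFrom k t (X 1) = frac (JQ k) (cc t) (d1 t) := by
  simp [chFrom]

lemma chFrom_X2 (t : Fin 4) : chFrom k t (X 2) = frac (JQ k) (cc t) (d2 t) := by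
  simp [chFrom]

lemma chFrom_ww (t : Fin 4) : chFrom k t (ww k) =
    -(frac (JQ k) (cc t) 0 ^ 2 + frac (JQ k) (cc t) (d1 t) * frac (JQ k) (cc t) (d2 t)) := by
  simp [chFrom, ww]

lemma aux1 {A : Type} [CommRing A] (f0 f1 f2 f3 f4 : A) (h : f0 ^ 2 + f1 * f2 + f3 * f4 = 0)
    (h1 : f1 = 1) : -(f0 ^ 2 + f3 * f4) = f2 := by
  subst h1
  linear_combination -h

lemma aux2 {A : Type} [CommRing A] (f0 f1 f2 f3 f4 : A) (h : f0 ^ 2 + f1 * f2 + f3 * f4 = 0)
    (h1 : f2 = 1) : -(f0 ^ 2 + f3 * f4) = f1 := by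
  subst h1
  linear_combination -h

lemma aux3 {A : Type} [CommRing A] (f0 f1 f2 f3 f4 : A) (h : f0 ^ 2 + f1 * f2 + f3 * f4 = 0)
    (h1 : f3 = 1) : -(f0 ^ 2 + f1 * f2) = f4 := by
  subst h1
  linear_combination -h

lemma aux4 {A : Type} [CommRing A] (f0 f1 f2 f3 f4 : A) (h : f0 ^ 2 + f1 * f2 + f3 * f4 = 0)
    (h1 : f4 = 1) : -(f0 ^ 2 + f1 * f2) = f3 := by
  subst h1
  linear_combination -h

lemma chFrom_uu (t : Fin 4) (a : Fin 5) : chFrom k t (uu k t a) = frac (JQ k) (cc t) a := by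
  have hself := frac_self (JQ k) (cc t)
  have hrel := rel_frac k (cc t)
  have h0 := chFrom_X0 k t
  have h1 := chFrom_X1 k t
  have h2 := chFrom_X2 k t
  have hw := chFrom_ww k t
  have hone : chFrom k t 1 = 1 := map_one _
  fin_cases t <;> fin_cases a
  · exact h0
  · exact hone.trans hself.symm
  · exact hw.trans (aux1 _ _ _ _ _ hrel hself)
  · exact h1
  · exact h2
  · exact h0
  · exact hw.trans (aux2 _ _ _ _ _ hrel hself)
  · exact hone.trans hself.symm
  · exact h1
  · exact h2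
  · exact h0
  · exact h1
  · exact h2
  · exact hone.trans hself.symm
  · exact hw.trans (aux3 _ _ _ _ _ hrel hself)
  · exact h0
  · exact h1
  · exact h2
  · exact hw.trans (aux4 _ _ _ _ _ hrel hself)
  · exact hone.trans hself.symm

/-- The chart ring is a polynomial ring. -/
noncomputable def chE (t : Fin 4) : Ch (JQ k) (cc t) ≃ₐ[k] MvPolynomial (Fin 3) k :=
  AlgEquiv.ofAlgHom (chTo k t) (chFrom k t) (by
    apply MvPolynomial.algHom_ext
    intro i
    rw [AlgHom.comp_apply]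
    fin_cases i
    · change chTo k t (chFrom k t (X 0)) = X 0
      rw [chFrom_X0, chTo, chLift_frac, uu_zero]
    · change chTo k t (chFrom k t (X 1)) = X 1
      rw [chFrom_X1, chTo, chLift_frac, uu_d1]
    · change chTo k t (chFrom k t (X 2)) = X 2
      rw [chFrom_X2, chTo, chLift_frac, uu_d2]) (by
    apply ch_algHom_ext
    intro a
    rw [AlgHom.comp_apply, chTo, chLift_frac, chFrom_uu]
    rfl)

lemma chE_frac (t : Fin 4) (a : Fin 5) : chE k t (frac (JQ k) (cc t) a) = uu k t a :=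
  chLift_frac (JQ k) (cc t) (uu k t) (uu_cc k t) (aeval_JQ k _ (uu_rel k t)) a

lemma ch_isDomain (t : Fin 4) : IsDomain (Ch (JQ k) (cc t)) :=
  (chE k t).toMulEquiv.isDomain _

lemma gen_rel : gen (JQ k) 0 ^ 2 + gen (JQ k) 1 * gen (JQ k) 2 + gen (JQ k) 3 * gen (JQ k) 4 = 0 := by
  have h : Ideal.Quotient.mk (JQ k).toIdeal (qf k) = 0 :=
    Ideal.Quotient.eq_zero_iff_mem.2 (mem_ofSet (Set.mem_singleton _))
  exact h

lemma exists_cc (x : V (JQ k)) : ∃ t : Fin 4, x ∈ V.D (JQ k) (cc t) := by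
  by_contra hcon
  push Not at hcon
  obtain ⟨a, ha⟩ := V.exists_mem_D (JQ k) x
  have h1 : gen (JQ k) 1 ∈ ProjectiveSpectrum.asHomogeneousIdeal (𝒜 := qgrad (JQ k).toIdeal) x := by
    have := hcon 0
    rw [V.mem_D_iff, not_not] at this
    exact this
  have h2 : gen (JQ k) 2 ∈ ProjectiveSpectrum.asHomogeneousIdeal (𝒜 := qgrad (JQ k).toIdeal) x := by
    have := hcon 1
    rw [V.mem_D_iff, not_not] at this
    exact this
  have h3 : gen (JQ k) 3 ∈ ProjectiveSpectrum.asHomogeneousIdeal (𝒜 := qgrad (JQ k).toIdeal) x := by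
    have := hcon 2
    rw [V.mem_D_iff, not_not] at this
    exact this
  have h4 : gen (JQ k) 4 ∈ ProjectiveSpectrum.asHomogeneousIdeal (𝒜 := qgrad (JQ k).toIdeal) x := by
    have := hcon 3
    rw [V.mem_D_iff, not_not] at this
    exact this
  have h0 : gen (JQ k) 0 ∈ ProjectiveSpectrum.asHomogeneousIdeal (𝒜 := qgrad (JQ k).toIdeal) x := by
    have hr := gen_rel k
    have hp : gen (JQ k) 0 ^ 2 ∈
        (ProjectiveSpectrum.asHomogeneousIdeal (𝒜 := qgrad (JQ k).toIdeal) x).toIdeal := by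
      have e : gen (JQ k) 0 ^ 2 = -(gen (JQ k) 1 * gen (JQ k) 2 + gen (JQ k) 3 * gen (JQ k) 4) := by
        linear_combination hr
      rw [e]
      exact (Ideal.neg_mem_iff _).2 (Ideal.add_mem _ (Ideal.mul_mem_right _ _ h1)
        (Ideal.mul_mem_right _ _ h3))
    exact x.isPrime.mem_of_pow_mem 2 hp
  rw [V.mem_D_iff] at ha
  apply ha
  fin_cases a
  · exact h0
  · exact h1
  · exact h2
  · exact h3
  · exact h4

/-- coordinates of a rational point -/
def pu : Fin 5 → k := ![0, 1, 1, 1, 1]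

variable [CharP k 2]

lemma two_k : (2 : k) = 0 := by
  have := CharP.cast_eq_zero k 2
  exact_mod_cast this

lemma pu_rel : pu k 0 ^ 2 + pu k 1 * pu k 2 + pu k 3 * pu k 4 = 0 := by
  simp only [pu, Fin.isValue, Matrix.cons_val]
  linear_combination two_k k

omit [CharP k 2] in
lemma pu_one : pu k 1 = 1 := rfl

/-- a rational point of the chart -/
noncomputable def ptR : Ch (JQ k) 1 →ₐ[k] k :=
  chLift (JQ k) 1 (pu k) (pu_one k) (aeval_JQ k _ (pu_rel k))

/-- a rational point -/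
noncomputable def pt : V (JQ k) :=
  (Spec.map (CommRingCat.ofHom (ptR k).toRingHom) ≫ V.chart (JQ k) 1)
    (IsLocalRing.closedPoint k : Spec (.of k))

lemma pt_mem (t : Fin 4) : pt k ∈ V.D (JQ k) (cc t) := by
  have h := V.chart_mem_D (JQ k) 1 (cc t) (Spec.map (CommRingCat.ofHom (ptR k).toRingHom)
    (IsLocalRing.closedPoint k : Spec (.of k)))
  refine h.2 ?_
  intro hcon
  have h2 : ptR k (frac (JQ k) 1 (cc t)) ∈ (IsLocalRing.closedPoint k).asIdeal := hcon
  have h3 : ptR k (frac (JQ k) 1 (cc t)) = 1 := by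
    rw [ptR, chLift_frac]
    fin_cases t <;> rfl
  rw [h3] at h2
  exact (IsLocalRing.closedPoint k).isPrime.ne_top ((Ideal.eq_top_iff_one _).2 h2)

lemma isIntegral_Q : IsIntegral (V (JQ k)) :=
  V.isIntegral_of_charts (JQ k) (ι := Fin 4) cc (exists_cc k) (ch_isDomain k) (pt k) (pt_mem k)

omit [CharP k 2] in
set_option backward.isDefEq.respectTransparency.types false in
lemma smooth_Q : SmoothOfRelativeDimension 3 (V.str (JQ k)) := by
  apply IsZariskiLocalAtSource.of_openCover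
    (V.coverOf (JQ k) cc (fun x => exists_cc k x)).openCover
  intro (t : Fin 4)
  change SmoothOfRelativeDimension 3 (V.chart (JQ k) (cc t) ≫ V.str (JQ k))
  rw [V.chart_str, HasRingHomProperty.Spec_iff (P := @SmoothOfRelativeDimension 3)]
  apply RingHom.locally_of
  · exact RingHom.isStandardSmoothOfRelativeDimension_respectsIso
  · have h1 := smooth_aff k
    have h2 : Algebra.IsStandardSmoothOfRelativeDimension 3 k (Ch (JQ k) (cc t)) :=
      Algebra.IsStandardSmoothOfRelativeDimension.of_algEquiv 3 (chE k t).symm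
    exact (RingHom.isStandardSmoothOfRelativeDimension_algebraMap 3).2 h2

lemma isSmoothProjectiveVariety_Q : IsSmoothProjectiveVariety 3 (V.str (JQ k)) where
  integral := isIntegral_Q k
  smooth := smooth_Q k
  projective := ⟨4, emb (JQ k) (Equiv.refl _),
    inferInstanceAs (IsClosedImmersion (emb (JQ k) (Equiv.refl _))), emb_str _ _⟩

end Pool.Agent.TH179.QT
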